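import Pool.Agent.Lib_MP_76d27f_co.Limit

/-!
# Random cubic graphs are whp 2-weakly Cockayne-Lorimer
-/

set_option autoImplicit false

namespace Pool.Agent.Results.MP_76d27f_co.RandomCubicWCL

open Finset Filter Topology

/-- `M` is a matching of `G`: a finite set of edges of `G` no two of which share a vertex. -/
def IsMatching {V : Type} (G : SimpleGraph V) (M : Finset (Sym2 V)) : Prop :=
  (∀ e ∈ M, e ∈ G.edgeSet) ∧ ∀ e ∈ M, ∀ f ∈ M, e ≠ f → ∀ v : V, ¬ (v ∈ e ∧ v ∈ f)

/-- The matching number `ν(G)`. -/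
noncomputable def matchingNumber {V : Type} (G : SimpleGraph V) : ℕ :=
  sSup {k : ℕ | ∃ M : Finset (Sym2 V), IsMatching G M ∧ M.card = k}

/-- `G → t K₂`: for every colouring of the edges with `q` colours there is a colour `j` and a
matching of `t j` edges all of colour `j`.  (A colouring is given as a function on all
unordered pairs; only its values on edges of `G` matter.) -/
def Arrows {V : Type} (G : SimpleGraph V) {q : ℕ} (t : Fin q → ℕ) : Prop :=
  ∀ c : Sym2 V → Fin q, ∃ j : Fin q, ∃ M : Finset (Sym2 V),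
    IsMatching G M ∧ (∀ e ∈ M, c e = j) ∧ M.card = t j

/-- `ρ_q(G) = (1/ν(G)) sup (Λ_t + 1)` over all vectors `t` of positive integers with
`G → t K₂`, where `Λ_t = ∑ (t_i - 1)`. -/
noncomputable def rho {V : Type} (q : ℕ) (G : SimpleGraph V) : ℝ :=
  1 / (matchingNumber G : ℝ) *
    sSup {x : ℝ | ∃ t : Fin q → ℕ, (∀ i, 1 ≤ t i) ∧ Arrows G t ∧
      x = (∑ i, ((t i : ℝ) - 1)) + 1}

/-- `G` is 3-regular. -/
def IsCubic {V : Type} (G : SimpleGraph V) : Prop := ∀ v, (G.neighborSet v).ncard = 3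

/-- The probability that the uniformly random labelled cubic graph on `n` vertices satisfies
`ρ₂ ≥ 1 + ε`. -/
noncomputable def prob (n : ℕ) (ε : ℝ) : ℝ :=
  (Nat.card {G : SimpleGraph (Fin n) // IsCubic G ∧ 1 + ε ≤ rho 2 G} : ℝ) /
    Nat.card {G : SimpleGraph (Fin n) // IsCubic G}

open Pool.Agent.WCL

theorem isCubic_iff {n : ℕ} (G : SimpleGraph (Fin n)) : IsCubic G ↔ Pool.Agent.WCL.Cubic G := by
  classical
  unfold IsCubic Pool.Agent.WCL.Cubic
  refine forall_congr' fun v => ?_
  have h1 : G.neighborSet v = ((univ.filter fun w => G.Adj v w : Finset (Fin n)) : Set (Fin n)) := by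
    ext w; simp
  rw [h1, Set.ncard_coe_finset]

theorem bddAbove_set {n : ℕ} (G : SimpleGraph (Fin n)) :
    BddAbove {x : ℝ | ∃ t : Fin 2 → ℕ, (∀ i, 1 ≤ t i) ∧ Arrows G t ∧
      x = (∑ i, ((t i : ℝ) - 1)) + 1} := by
  refine ⟨2 * (Fintype.card (Sym2 (Fin n)) : ℝ) + 1, ?_⟩
  rintro x ⟨t, ht, hA, rfl⟩
  have h1 : ∀ i : Fin 2, t i ≤ Fintype.card (Sym2 (Fin n)) := by
    intro i
    obtain ⟨j, M, hM, hc, hMc⟩ := hA (fun _ => i)
    by_cases hij : i = j
    · subst hij
      rw [← hMc]
      exact card_le_univ M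
    · have h2 : M = ∅ := by
        rw [Finset.eq_empty_iff_forall_notMem]
        intro e he
        exact hij (hc e he)
      have h3 := ht j
      rw [← hMc, h2, card_empty] at h3
      omega
  rw [Fin.sum_univ_two]
  have h4 : (t 0 : ℝ) ≤ Fintype.card (Sym2 (Fin n)) := by exact_mod_cast h1 0
  have h5 : (t 1 : ℝ) ≤ Fintype.card (Sym2 (Fin n)) := by exact_mod_cast h1 1
  linarith

theorem matching_two_mul_le {n : ℕ} (G : SimpleGraph (Fin n)) (M : Finset (Sym2 (Fin n)))
    (hM : IsMatching G M) : 2 * M.card ≤ n := by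
  classical
  have h1 : (M.biUnion fun e => e.toFinset).card = ∑ e ∈ M, e.toFinset.card := by
    apply card_biUnion
    intro e he f hf hef
    rw [Function.onFun, Finset.disjoint_left]
    intro v hv hv'
    rw [Sym2.mem_toFinset] at hv hv'
    exact hM.2 e he f hf hef v ⟨hv, hv'⟩
  have h2 : ∀ e ∈ M, e.toFinset.card = 2 := by
    intro e he
    exact Sym2.card_toFinset_of_not_isDiag e (G.not_isDiag_of_mem_edgeSet (hM.1 e he))
  rw [sum_congr rfl h2, sum_const, smul_eq_mul] at h1
  have h3 := card_le_univ (M.biUnion fun e => e.toFinset)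
  rw [h1, Fintype.card_fin] at h3
  omega

theorem matchingNumber_le {k : ℕ} (G : SimpleGraph (Fin (2 * k))) : matchingNumber G ≤ k := by
  unfold matchingNumber
  apply csSup_le'
  rintro x ⟨M, hM, rfl⟩
  have := matching_two_mul_le G M hM
  omega

theorem matchingNumber_pos {n : ℕ} (G : SimpleGraph (Fin n)) (a b : Fin n) (hab : G.Adj a b) :
    1 ≤ matchingNumber G := by
  unfold matchingNumber
  apply le_csSup
  · refine ⟨n, ?_⟩
    rintro x ⟨M, hM, rfl⟩
    have := matching_two_mul_le G M hM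
    omega
  · refine ⟨{s(a, b)}, ⟨?_, ?_⟩, card_singleton _⟩
    · intro e he
      rw [mem_singleton] at he
      rw [he]
      exact hab
    · intro e he f hf hef
      rw [mem_singleton] at he hf
      exact absurd (he.trans hf.symm) hef

/-- If the arrow fails, the two colour classes have small matchings. -/
theorem colour_classes {n : ℕ} (G : SimpleGraph (Fin n)) (k' : ℕ)
    (h : ¬ Arrows G (fun _ : Fin 2 => k' + 1)) :
    ∃ R B : SimpleGraph (Fin n), R ≤ G ∧ B ≤ G ∧ (∀ a b, G.Adj a b → R.Adj a b ∨ B.Adj a b) ∧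
      (∀ M, IsMat R M → M.card ≤ k') ∧ (∀ M, IsMat B M → M.card ≤ k') := by
  unfold Arrows at h
  push Not at h
  obtain ⟨c, hc⟩ := h
  let C : Fin 2 → SimpleGraph (Fin n) := fun j =>
    { Adj := fun a b => G.Adj a b ∧ c s(a, b) = j
      symm := ⟨fun a b hab => ⟨hab.1.symm, by rw [Sym2.eq_swap]; exact hab.2⟩⟩
      loopless := ⟨fun a ha => G.loopless.irrefl a ha.1⟩ }
  have hC : ∀ j, ∀ M, IsMat (C j) M → M.card ≤ k' := by
    intro j M hM
    by_contra hlt
    push Not at hlt
    obtain ⟨M', hM', hM'c⟩ := exists_subset_card_eq (show k' + 1 ≤ M.card by omega)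
    refine hc j M' ⟨?_, ?_⟩ ?_ hM'c
    · intro e he
      have h1 := hM.1 e (hM' he)
      induction e using Sym2.ind with
      | _ a b => exact h1.1
    · intro e he f hf hef v hv
      exact hM.2 e (hM' he) f (hM' hf) hef v hv
    · intro e he
      have h1 := hM.1 e (hM' he)
      induction e using Sym2.ind with
      | _ a b => exact h1.2
  refine ⟨C 0, C 1, fun a b hab => hab.1, fun a b hab => hab.1, ?_, hC 0, hC 1⟩
  intro a b hab
  have h2 : c s(a, b) = 0 ∨ c s(a, b) = 1 := by
    have h3 := (c s(a, b)).isLt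
    rcases Nat.lt_or_ge (c s(a, b)).val 1 with h4 | h4
    · left; ext; simp; omega
    · right; ext; simp; omega
  rcases h2 with h2 | h2
  · exact Or.inl ⟨hab, h2⟩
  · exact Or.inr ⟨hab, h2⟩

/-- The random cubic graph is whp 2-weakly Cockayne-Lorimer. -/
theorem result : ∃ ε : ℝ, 0 < ε ∧ Tendsto (fun k : ℕ => prob (2 * k) ε) atTop (𝓝 1) := by
  classical
  obtain ⟨ε, hε, F, hF, hmain⟩ := main_limit
  refine ⟨ε / 2, by positivity, ?_⟩
  let k' : ℕ → ℕ := fun k => ⌊(1 + ε) * k / 2⌋₊
  have hlim := hmain (fun k G => ¬ Arrows G (fun _ : Fin 2 => k' k + 1))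
    (fun k G _ h => colour_classes G (k' k) h)
  -- arrows imply large rho
  have hrho : ∀ᶠ k : ℕ in atTop, ∀ G : SimpleGraph (Fin (2 * k)), Pool.Agent.WCL.Cubic G →
      Arrows G (fun _ : Fin 2 => k' k + 1) → 1 + ε / 2 ≤ rho 2 G := by
    filter_upwards [eventually_ge_atTop 1, eventually_ge_atTop ⌈2 / ε⌉₊] with k hk1 hk2 G hG hA
    have hk0 : (0 : ℝ) < k := by exact_mod_cast hk1
    have hk2' : 2 / ε ≤ k := (Nat.le_ceil _).trans (by exact_mod_cast hk2)
    have hkε : 2 ≤ ε * k := by
      rw [div_le_iff₀ hε] at hk2'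
      linarith
    obtain ⟨a, b, hab⟩ : ∃ a b, G.Adj a b := by
      have h1 := hG ⟨0, by omega⟩
      obtain ⟨b, hb⟩ := card_pos.1 (by rw [h1]; norm_num : 0 < (univ.filter fun w =>
        G.Adj ⟨0, by omega⟩ w).card)
      rw [mem_filter] at hb
      exact ⟨_, b, hb.2⟩
    have hν1 : (1 : ℝ) ≤ matchingNumber G := by exact_mod_cast matchingNumber_pos G a b hab
    have hν2 : (matchingNumber G : ℝ) ≤ k := by exact_mod_cast matchingNumber_le G
    have hsup : (1 + ε / 2) * k ≤ sSup {x : ℝ | ∃ t : Fin 2 → ℕ, (∀ i, 1 ≤ t i) ∧ Arrows G t ∧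
        x = (∑ i, ((t i : ℝ) - 1)) + 1} := by
      refine le_trans ?_ (le_csSup (bddAbove_set G)
        ⟨fun _ => k' k + 1, fun _ => Nat.le_add_left _ _, hA, rfl⟩)
      rw [Fin.sum_univ_two]
      have h2 : (1 + ε) * k / 2 < (k' k : ℝ) + 1 := Nat.lt_floor_add_one _
      push_cast
      linarith
    unfold rho
    rw [one_div, inv_mul_eq_div, le_div_iff₀ (by linarith)]
    refine le_trans ?_ hsup
    apply mul_le_mul_of_nonneg_left hν2
    positivity
  -- probabilities in terms of `cub`
  have hcard : ∀ (n : ℕ) (P : SimpleGraph (Fin n) → Prop),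
      Nat.card {G : SimpleGraph (Fin n) // IsCubic G ∧ P G} = cub n P := by
    intro n P
    rw [Nat.card_eq_fintype_card, Fintype.card_subtype]
    unfold cub
    apply congrArg Finset.card
    ext G
    simp only [mem_filter, mem_univ, true_and]
    rw [isCubic_iff]
  have hcard' : ∀ n : ℕ, Nat.card {G : SimpleGraph (Fin n) // IsCubic G} =
      cub n (fun _ => True) := by
    intro n
    rw [Nat.card_eq_fintype_card, Fintype.card_subtype]
    unfold cub
    apply congrArg Finset.card
    ext G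
    simp only [mem_filter, mem_univ, true_and]
    rw [isCubic_iff, and_true]
  have hpos : ∀ᶠ k : ℕ in atTop, (0 : ℝ) < cub (2 * k) (fun _ => True) := by
    filter_upwards [eventually_ge_atTop 10] with k hk
    have h1 := ratio k hk (fun _ => True) (fun _ => True) (fun _ _ _ _ => trivial)
    have h2 := cnt_eq_cub (n := 2 * k) (M := 3 * k) (by ring) (fun _ => True)
    have h3 := simple_many (n := 2 * k) (M := 3 * k) (by omega)
    have h4 := Om_pos k
    have h5 : cnt (2 * k) (3 * k) (fun w => (badSet w).card = 0) =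
        cub (2 * k) (fun _ => True) * ((3 * k).factorial * 2 ^ (3 * k)) := by
      rw [← h2]
      refine cnt_congr fun w _ => ?_
      simp [Simp]
    rw [h5] at h3
    have h6 : cub (2 * k) (fun _ => True) ≠ 0 := by
      intro h
      rw [h, zero_mul, mul_zero] at h3
      omega
    exact_mod_cast Nat.pos_of_ne_zero h6
  refine tendsto_of_tendsto_of_tendsto_of_le_of_le' (g := fun k => 1 - F k) (h := fun _ => 1)
    ?_ tendsto_const_nhds ?_ ?_
  · simpa using (tendsto_const_nhds (x := (1 : ℝ))).sub hF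
  · filter_upwards [hlim, hrho, hpos] with k h1 h2 h3
    unfold prob
    rw [hcard, hcard', le_div_iff₀ h3]
    have h4 : cub (2 * k) (fun _ => True) ≤ cub (2 * k) (fun G => 1 + ε / 2 ≤ rho 2 G) +
        cub (2 * k) (fun G => ¬ Arrows G (fun _ : Fin 2 => k' k + 1)) := by
      unfold cub
      refine le_trans (card_le_card ?_) (card_union_le _ _)
      intro G hG
      simp only [mem_filter, mem_univ, true_and, and_true, mem_union] at hG ⊢
      by_cases hA : Arrows G (fun _ : Fin 2 => k' k + 1)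
      · exact Or.inl ⟨hG, h2 G hG hA⟩
      · exact Or.inr ⟨hG, hA⟩
    have h5 : (cub (2 * k) (fun _ => True) : ℝ) ≤ cub (2 * k) (fun G => 1 + ε / 2 ≤ rho 2 G) +
        cub (2 * k) (fun G => ¬ Arrows G (fun _ : Fin 2 => k' k + 1)) := by exact_mod_cast h4
    linarith
  · filter_upwards [hpos] with k h3
    unfold prob
    rw [hcard, hcard', div_le_one h3]
    have h4 : cub (2 * k) (fun G => 1 + ε / 2 ≤ rho 2 G) ≤ cub (2 * k) (fun _ => True) := by
      unfold cub
      apply card_le_card
      intro G hG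
      simp only [mem_filter, mem_univ, true_and, and_true] at hG ⊢
      exact hG.1
    exact_mod_cast h4

end Pool.Agent.Results.MP_76d27f_co.RandomCubicWCL
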